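import Pool.Agent.Helper64.RFn.GoalsF

set_option autoImplicit false

open MeasureTheory Set Filter Topology
open scoped RealInnerProductSpace ContDiff

noncomputable section

namespace Pool.Agent.Helper9.RFn

open Pool.Agent.Helper64.RFn

variable {m : ℕ}

theorem contDiff_det : ContDiff ℝ ∞ (fun A : V m →L[ℝ] V m => A.det) := by
  let b := Module.finBasis ℝ (V m)
  have h : (fun A : V m →L[ℝ] V m => A.det) =
      fun A => Matrix.det (Matrix.of fun i j => b.coord i (A (b j))) := by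
    ext A
    rw [ContinuousLinearMap.det, ← LinearMap.det_toMatrix b]
    congr 1
    ext i j
    rw [LinearMap.toMatrix_apply]
    rfl
  rw [h]
  simp only [Matrix.det_apply]
  refine ContDiff.sum fun σ _ => ContDiff.const_smul _ (contDiff_prod fun i _ => ?_)
  exact ((LinearMap.toContinuousLinearMap (b.coord (σ i))).comp
    (ContinuousLinearMap.apply ℝ (V m) (b i))).contDiff

/-- injective endomorphisms are invertible -/
theorem isInv (A : V m →L[ℝ] V m) (h : ∀ v, A v = 0 → v = 0) : A.IsInvertible := by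
  have hinj : Function.Injective (A : V m →ₗ[ℝ] V m) := by
    rw [← LinearMap.ker_eq_bot, LinearMap.ker_eq_bot']
    exact h
  exact ⟨(LinearEquiv.ofInjectiveEndo (A : V m →ₗ[ℝ] V m) hinj).toContinuousLinearEquiv, by
    ext v; rfl⟩

theorem trace_le (S : V m →L[ℝ] V m) (K : ℝ) (h : ∀ v, ‖S v‖ ≤ K * ‖v‖) :
    |LinearMap.trace ℝ (V m) (S : V m →ₗ[ℝ] V m)| ≤ m * K := by
  set b := EuclideanSpace.basisFun (Fin m) ℝ with hb
  rw [LinearMap.trace_eq_sum_inner _ b]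
  calc |∑ i, ⟪b i, (S : V m →ₗ[ℝ] V m) (b i)⟫|
      ≤ ∑ i, |⟪b i, (S : V m →ₗ[ℝ] V m) (b i)⟫| := Finset.abs_sum_le_sum_abs _ _
    _ ≤ ∑ _i : Fin m, K := by
        refine Finset.sum_le_sum fun i _ => ?_
        have h1 : ‖b i‖ = 1 := b.norm_eq_one i
        calc |⟪b i, (S : V m →ₗ[ℝ] V m) (b i)⟫| ≤ ‖b i‖ * ‖S (b i)‖ := abs_real_inner_le_norm _ _
          _ ≤ 1 * (K * 1) := by
              rw [h1]
              have := h (b i)
              rw [h1] at this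
              linarith
          _ = K := by ring
    _ = m * K := by simp

theorem smulRight_trace (f : V m →L[ℝ] ℝ) (w : V m) :
    LinearMap.trace ℝ (V m) ((f.smulRight w : V m →L[ℝ] V m) : V m →ₗ[ℝ] V m) = f w := by
  have : ((f.smulRight w : V m →L[ℝ] V m) : V m →ₗ[ℝ] V m) = (f : V m →ₗ[ℝ] ℝ).smulRight w := by
    ext v; rfl
  rw [this, LinearMap.trace_smulRight]
  rfl

variable {T : V m → V m →L[ℝ] V m} {B : V m → V m →L[ℝ] (V m →L[ℝ] V m)}
  {P : V m → V m →L[ℝ] V m} {e : V m} {c ε : ℝ}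

theorem cdT (hC : Cone T B) {x : V m} (hx : x ≠ 0) : ContDiffAt ℝ ∞ T x :=
  hC.smT.contDiffAt (isOpen_compl_singleton.mem_nhds hx)

theorem dT (hC : Cone T B) {x : V m} (hx : x ≠ 0) : DifferentiableAt ℝ T x :=
  (cdT hC hx).differentiableAt (by simp)

theorem fderiv_T_self (hC : Cone T B) {x : V m} (hx : x ≠ 0) : fderiv ℝ T x x = 0 := by
  have h1 : HasDerivAt (fun r : ℝ => r • x) x 1 := by
    simpa using (hasDerivAt_id (1:ℝ)).smul_const x
  have h2 : HasDerivAt (fun r : ℝ => T (r • x)) (fderiv ℝ T x x) 1 := by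
    have h := (dT hC hx).hasFDerivAt
    have h' : HasFDerivAt T (fderiv ℝ T x) ((fun r : ℝ => r • x) 1) := by simpa using h
    exact h'.comp_hasDerivAt (1:ℝ) h1
  have h3 : (fun r : ℝ => T (r • x)) =ᶠ[𝓝 1] fun _ => T x := by
    filter_upwards [lt_mem_nhds (one_pos : (0:ℝ) < 1)] with r hr
    exact hC.homT r hr x hx
  exact h2.unique ((hasDerivAt_const (1:ℝ) (T x)).congr_of_eventuallyEq h3)

theorem tors_x (hC : Cone T B) {x : V m} (hx : x ≠ 0) (v : V m) :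
    fderiv ℝ T x v x + B x v (T x x) = 0 := by
  have h := hC.tors x hx v x
  rw [fderiv_T_self hC hx, hC.radB x hx] at h
  simpa using h

theorem norm_inv_deriv {x : V m} (hx : x ≠ 0) :
    HasFDerivAt (fun y : V m => ‖y‖⁻¹) ((-(‖x‖⁻¹ ^ 3)) • innerSL ℝ x) x := by
  have hn : ‖x‖ ≠ 0 := norm_ne_zero_iff.mpr hx
  have h1 : HasFDerivAt (fun y : V m => ‖y‖ ^ 2) (2 • innerSL ℝ x) x :=
    (hasStrictFDerivAt_norm_sq x).hasFDerivAt
  have h2 := h1.sqrt (by positivity)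
  have h3 : (fun y : V m => Real.sqrt (‖y‖ ^ 2)) = fun y => ‖y‖ := by
    funext y; exact Real.sqrt_sq (norm_nonneg _)
  rw [h3, Real.sqrt_sq (norm_nonneg x)] at h2
  have h4 := (hasDerivAt_inv hn).comp_hasFDerivAt x h2
  refine h4.congr_fderiv ?_
  ext v
  simp only [_root_.smul_apply, innerSL_apply_apply, smul_eq_mul, nsmul_eq_mul]
  field_simp
  norm_num

/-- `√c0 ‖v‖ ≤ ‖T x v‖` -/
theorem low_bd {c0 : ℝ} (hc0 : 0 < c0) {A : V m →L[ℝ] V m} {v : V m} (h : c0 * ‖v‖ ^ 2 ≤ ‖A v‖ ^ 2) :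
    ‖v‖ ≤ ‖A v‖ / Real.sqrt c0 := by
  rw [le_div_iff₀ (Real.sqrt_pos.mpr hc0)]
  have h1 : (‖v‖ * Real.sqrt c0) ^ 2 ≤ ‖A v‖ ^ 2 := by
    rw [mul_pow, Real.sq_sqrt hc0.le]; linarith
  exact (le_abs_self _).trans (abs_le_of_sq_le_sq h1 (norm_nonneg _) |> fun h => h)

/-- `Z = P y0 - ‖x‖⁻¹ T x x` -/
def Zf (T P : V m → V m →L[ℝ] V m) (y0 : V m) (x : V m) : V m := P x y0 - ‖x‖⁻¹ • T x x

/-- `z = T⁻¹ Z` -/
def zf (T P : V m → V m →L[ℝ] V m) (y0 : V m) (x : V m) : V m :=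
  (T x).inverse (P x y0) - ‖x‖⁻¹ • x

theorem Tz {x y0 : V m} (h : (T x).IsInvertible) : T x (zf T P y0 x) = Zf T P y0 x := by
  simp [zf, Zf, h.self_apply_inverse]

theorem Zf_deriv (hC : Cone T B) (hP : ContDiff ℝ (⊤ : ℕ∞) P) {x : V m} (hx : x ≠ 0) (y0 : V m) :
    HasFDerivAt (Zf T P y0) ((fderiv ℝ P x).flip y0 - (‖x‖⁻¹ • (T x + (fderiv ℝ T x).flip x) +
      ((-(‖x‖⁻¹ ^ 3)) • innerSL ℝ x).smulRight (T x x))) x := by
  have h1 : HasFDerivAt (fun y => P y y0) ((fderiv ℝ P x).flip y0) x := by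
    have := (hP.differentiable (by simp) x).hasFDerivAt.clm_apply (hasFDerivAt_const y0 x)
    refine this.congr_fderiv ?_
    ext v
    simp
  have h2 : HasFDerivAt (fun y => T y y) (T x + (fderiv ℝ T x).flip x) x := by
    have := (dT hC hx).hasFDerivAt.clm_apply (hasFDerivAt_id x)
    refine this.congr_fderiv ?_
    ext v
    simp
  exact h1.sub ((norm_inv_deriv hx).smul h2)

theorem self_adj {Q : V m →L[ℝ] V m} (h : ∀ a b, ⟪Q a, Q b⟫ = ⟪a, b⟫) (w : V m) :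
    Q (ContinuousLinearMap.adjoint Q w) = w := by
  have h1 : (ContinuousLinearMap.adjoint Q : V m →ₗ[ℝ] V m) * (Q : V m →ₗ[ℝ] V m) = 1 := by
    ext1 a
    refine ext_inner_right ℝ fun b => ?_
    change ⟪ContinuousLinearMap.adjoint Q (Q a), b⟫ = ⟪a, b⟫
    rw [ContinuousLinearMap.adjoint_inner_left, h]
  have h2 := mul_eq_one_comm.mp h1
  exact LinearMap.congr_fun h2 w

theorem norm_orth {Q : V m →L[ℝ] V m} (h : ∀ a b, ⟪Q a, Q b⟫ = ⟪a, b⟫) (w : V m) :
    ‖Q w‖ = ‖w‖ := by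
  have := h w w
  rw [real_inner_self_eq_norm_sq, real_inner_self_eq_norm_sq] at this
  exact (pow_left_inj₀ (norm_nonneg _) (norm_nonneg _) two_ne_zero).mp this

theorem Zf_bd (hC : Cone T B) (hD : Dev B e c ε P) (hc : 0 < c) (hε : 0 ≤ ε) {y0 : V m}
    (hy0 : ‖y0‖ = 1) {δ : ℝ} (hcl : ∀ X ∈ KK e 0, ‖X‖ = 1 → ‖FF T P X - y0‖ ≤ δ) {x : V m}
    (hx1 : 1 / 2 ≤ ‖x‖) (hx2 : ‖x‖ ≤ 3 / 2) (hxe : 0 < ⟪x, e⟫) :
    ‖Zf T P y0 x‖ ≤ δ + ε := by
  have hn : 0 < ‖x‖ := by linarith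
  have hx : x ≠ 0 := norm_pos_iff.mp hn
  set X : V m := ‖x‖⁻¹ • x with hX
  have hX1 : ‖X‖ = 1 := by rw [hX, norm_smul, norm_inv, norm_norm, inv_mul_cancel₀ hn.ne']
  have hX0 : X ≠ 0 := by rw [← norm_pos_iff, hX1]; exact one_pos
  have hxX : x = ‖x‖ • X := by rw [hX, smul_smul, mul_inv_cancel₀ hn.ne', one_smul]
  have hXe : 0 < ⟪X, e⟫ := by
    rw [hX, real_inner_smul_left]; positivity
  have hTX : T x = T X := by
    conv_lhs => rw [hxX]
    exact hC.homT _ hn X hX0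
  have hTXX : ‖x‖⁻¹ • T x x = T X X := by
    rw [← map_smul, ← hX, hTX]
  have hFF : P X (FF T P X) = T X X := by
    unfold FF
    rw [hX1, inv_one, one_smul]
    exact self_adj (hD.orth X) _
  have h1 : ‖P X y0 - T X X‖ ≤ δ := by
    rw [← hFF, ← map_sub, norm_orth (hD.orth X), norm_sub_rev]
    exact hcl X ⟨hX0, by simpa using hXe.le⟩ hX1
  have h2 : ‖P x - P X‖ ≤ ε := by
    have hder : ∀ t ∈ Icc (1 / 2 : ℝ) (3 / 2),
        HasDerivWithinAt (fun t : ℝ => P (t • X)) (fderiv ℝ P (t • X) X) (Icc (1 / 2) (3 / 2)) t := by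
      intro t _
      have h1 : HasDerivAt (fun r : ℝ => r • X) X t := by
        simpa using (hasDerivAt_id t).smul_const X
      exact ((hD.smooth.differentiable (by simp) (t • X)).hasFDerivAt.comp_hasDerivAt t
        h1).hasDerivWithinAt
    have hbd : ∀ t ∈ Icc (1 / 2 : ℝ) (3 / 2), ‖fderiv ℝ P (t • X) X‖ ≤ ε := by
      intro t ht
      have ht0 : 0 < t := by linarith [ht.1]
      have htX : t • X ≠ 0 := smul_ne_zero ht0.ne' hX0
      have hB : B (t • X) X = 0 := by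
        have h := hC.radB (t • X) htX
        rw [map_smul] at h
        exact (smul_eq_zero.mp h).resolve_left ht0.ne'
      have hnt : ‖t • X‖ = t := by rw [norm_smul, hX1, mul_one, Real.norm_of_nonneg ht0.le]
      have hR : t • X ∈ Rg e c := by
        refine ⟨by rw [hnt]; linarith [ht.1], by rw [hnt]; linarith [ht.2], ?_⟩
        rw [hnt, real_inner_smul_left]
        nlinarith [mul_pos ht0 hXe, mul_pos hc ht0]
      have h := hD.der (t • X) hR X
      rw [hB, hX1] at h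
      simpa using h
    have h := (convex_Icc (1 / 2 : ℝ) (3 / 2)).norm_image_sub_le_of_norm_hasDerivWithin_le hder hbd
      (x := 1) (y := ‖x‖) ⟨by norm_num, by norm_num⟩ ⟨hx1, hx2⟩
    simp only [one_smul, ← hxX] at h
    refine h.trans ?_
    rw [Real.norm_eq_abs]
    have : |‖x‖ - 1| ≤ 1 := by rw [abs_le]; constructor <;> linarith
    nlinarith
  have h3 : ‖P x y0 - P X y0‖ ≤ ε := by
    have := (P x - P X).le_opNorm y0
    rw [hy0, mul_one] at this
    exact this.trans h2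
  unfold Zf
  rw [hTXX]
  calc ‖P x y0 - T X X‖ = ‖(P x y0 - P X y0) + (P X y0 - T X X)‖ := by congr 1; abel
    _ ≤ ε + δ := (norm_add_le _ _).trans (add_le_add h3 h1)
    _ = δ + ε := by ring

theorem T_inj {c0 : ℝ} (hc0 : 0 < c0) (hlow : ∀ x, x ≠ 0 → ∀ v, c0 * ‖v‖ ^ 2 ≤ ‖T x v‖ ^ 2) :
    ∀ x, x ≠ 0 → ∀ v, T x v = 0 → v = 0 := by
  intro x hx v hv
  have h := low_bd hc0 (hlow x hx v)
  rw [hv, norm_zero, zero_div] at h
  exact norm_le_zero_iff.mp h

theorem div_bd (tra : TRAn) (hC : Cone T B) (hD : Dev B e c ε P) {c0 : ℝ} (hc0 : 0 < c0)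
    (hlow : ∀ x, x ≠ 0 → ∀ v, c0 * ‖v‖ ^ 2 ≤ ‖T x v‖ ^ 2) {y0 : V m} (hy0 : ‖y0‖ = 1) {x : V m}
    (hx : x ≠ 0) (hR : x ∈ Rg e c) :
    DifferentiableAt ℝ (fun y => |(T y).det| • zf T P y0 y) x ∧
    LinearMap.trace ℝ (V m) (fderiv ℝ (fun y => |(T y).det| • zf T P y0 y) x : V m →ₗ[ℝ] V m)
      ≤ |(T x).det| * (m * (ε / Real.sqrt c0) - (m - 1) * ‖x‖⁻¹) := by
  have hinj := T_inj hc0 hlow
  have hn : ‖x‖ ≠ 0 := norm_ne_zero_iff.mpr hx
  have hsx : 0 < Real.sqrt c0 := Real.sqrt_pos.mpr hc0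
  have hinv : ∀ y, y ≠ 0 → (T y).IsInvertible := fun y hy => isInv (T y) (hinj y hy)
  set S1 : V m →L[ℝ] V m := (T x).inverse.comp ((fderiv ℝ P x).flip y0 + (B x).flip (P x y0))
    with hS1
  set S2 : V m →L[ℝ] V m := ‖x‖⁻¹ • ContinuousLinearMap.id ℝ (V m) -
    ((‖x‖⁻¹ ^ 3) • innerSL ℝ x).smulRight x with hS2
  have hTS1 : ∀ v, T x (S1 v) = fderiv ℝ P x v y0 + B x v (P x y0) := by
    intro v
    rw [hS1, ContinuousLinearMap.comp_apply, (hinv x hx).self_apply_inverse]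
    simp
  have hTS2 : ∀ v, T x (S2 v) = ‖x‖⁻¹ • T x v - (‖x‖⁻¹ ^ 3 * ⟪x, v⟫) • T x x := by
    intro v
    rw [hS2]
    simp
  have hS : ∀ v, T x ((S1 - S2) v) = fderiv ℝ (Zf T P y0) x v + B x v (Zf T P y0 x) := by
    intro v
    have ht := tors_x hC hx v
    have ht' : B x v (T x x) = - fderiv ℝ T x v x := by
      rw [eq_neg_iff_add_eq_zero, add_comm]; exact ht
    rw [_root_.sub_apply, map_sub, hTS1, hTS2, (Zf_deriv hC hD.smooth hx y0).fderiv]
    simp only [Zf, map_sub, map_smul, ht', _root_.sub_apply, _root_.add_apply, _root_.smul_apply,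
      ContinuousLinearMap.flip_apply, ContinuousLinearMap.smulRight_apply, innerSL_apply_apply,
      smul_eq_mul]
    module
  have key := tra m T B hC hinj (Zf T P y0) (zf T P y0) (S1 - S2) x hx
    (Zf_deriv hC hD.smooth hx y0).differentiableAt
    (by
      filter_upwards [isOpen_compl_singleton.mem_nhds (show x ∈ ({0} : Set (V m))ᶜ from hx)] with y hy
      exact Tz (hinv y hy)) hS
  refine ⟨key.1, ?_⟩
  rw [key.2]
  refine mul_le_mul_of_nonneg_left ?_ (abs_nonneg _)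
  have h1 : |LinearMap.trace ℝ (V m) (S1 : V m →ₗ[ℝ] V m)| ≤ m * (ε / Real.sqrt c0) := by
    refine trace_le S1 _ fun v => ?_
    refine (low_bd hc0 (hlow x hx (S1 v))).trans ?_
    rw [hTS1]
    have h := hD.der x hR v
    have h2 : ‖fderiv ℝ P x v y0 + B x v (P x y0)‖ ≤ ε * ‖v‖ := by
      have h3 := (fderiv ℝ P x v + (B x v).comp (P x)).le_opNorm y0
      rw [hy0, mul_one] at h3
      exact h3.trans h
    calc ‖fderiv ℝ P x v y0 + B x v (P x y0)‖ / Real.sqrt c0 ≤ ε * ‖v‖ / Real.sqrt c0 := by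
          gcongr
      _ = ε / Real.sqrt c0 * ‖v‖ := by ring
  have h2 : LinearMap.trace ℝ (V m) (S2 : V m →ₗ[ℝ] V m) = (m - 1) * ‖x‖⁻¹ := by
    have h3 : (S2 : V m →ₗ[ℝ] V m) = ‖x‖⁻¹ • LinearMap.id -
        ((((‖x‖⁻¹ ^ 3) • innerSL ℝ x).smulRight x : V m →L[ℝ] V m) : V m →ₗ[ℝ] V m) := by
      rw [hS2]; rfl
    rw [h3, map_sub, map_smul, LinearMap.trace_id, smulRight_trace]
    simp only [finrank_euclideanSpace, Fintype.card_fin, _root_.smul_apply, innerSL_apply_apply,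
      smul_eq_mul, real_inner_self_eq_norm_sq]
    field_simp
  have h4 : ((S1 - S2 : V m →L[ℝ] V m) : V m →ₗ[ℝ] V m) = (S1 : V m →ₗ[ℝ] V m) -
      (S2 : V m →ₗ[ℝ] V m) := rfl
  rw [h4, map_sub, h2]
  have := le_of_abs_le h1
  linarith

theorem cd_det (hC : Cone T B) {x : V m} (hx : x ≠ 0) (hd : (T x).det ≠ 0) :
    ContDiffAt ℝ ∞ (fun y => |(T y).det|) x := by
  have h1 : ContDiffAt ℝ ∞ (fun y => (T y).det) x :=
    (contDiff_det.contDiffAt (x := T x)).comp x (cdT hC hx)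
  exact (contDiffAt_abs hd).comp x h1

theorem cd_zf (hC : Cone T B) (hP : ContDiff ℝ (⊤ : ℕ∞) P) {x : V m} (hx : x ≠ 0)
    (hinv : (T x).IsInvertible) (y0 : V m) : ContDiffAt ℝ ∞ (zf T P y0) x := by
  have hn : ‖x‖ ≠ 0 := norm_ne_zero_iff.mpr hx
  have h1 : ContDiffAt ℝ ∞ (fun y => (T y).inverse) x :=
    (hinv.contDiffAt_map_inverse (n := ∞)).comp x (cdT hC hx)
  have h2 : ContDiffAt ℝ ∞ (fun y => P y y0) x := hP.contDiffAt.clm_apply contDiffAt_const
  have h3 : ContDiffAt ℝ ∞ (fun y : V m => ‖y‖⁻¹ • y) x :=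
    ((contDiffAt_norm ℝ hx).inv hn).smul contDiffAt_id
  exact (h1.clm_apply h2).sub h3

/-- trace as a continuous function -/
theorem trace_cont : Continuous fun A : V m →L[ℝ] V m =>
    LinearMap.trace ℝ (V m) (A : V m →ₗ[ℝ] V m) := by
  let L : (V m →L[ℝ] V m) →ₗ[ℝ] ℝ :=
    (LinearMap.trace ℝ (V m)) ∘ₗ (ContinuousLinearMap.coeLM ℝ)
  exact L.continuous_of_finiteDimensional

theorem neen (det : DETn) (div : DIVn) (tra : TRAn) : NEEn := by
  intro m c0 C0 hm hc0 hC0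
  set f : ContDiffBump (0 : V m) := ⟨1 / 4, 1 / 2, by norm_num, by norm_num⟩ with hf
  set I0 : ℝ := ∫ x, f x with hI0
  have hI0pos : 0 < I0 := f.integral_pos
  set J : ℝ := ∫ x, ‖fderiv ℝ f x‖ with hJ
  have hJ0 : 0 ≤ J := integral_nonneg fun x => norm_nonneg _
  set r0 : ℝ := Real.sqrt c0 with hr0
  have hr0pos : 0 < r0 := Real.sqrt_pos.mpr hc0
  set sC : ℝ := Real.sqrt C0 ^ m with hsC
  have hsC0 : 0 ≤ sC := by positivity
  set sc : ℝ := r0 ^ m with hsc
  have hscpos : 0 < sc := by positivity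
  have hm0 : (0 : ℝ) < m := by
    have : 0 < m := by omega
    exact_mod_cast this
  have hm2 : (2 : ℝ) ≤ m := by exact_mod_cast hm
  set t : ℝ := min (r0 / (3 * m)) (sc * I0 * r0 / (12 * (sC * J + 1))) with ht
  have ht0 : 0 < t := by positivity
  have ht1 : m * (t / r0) ≤ 1 / 3 := by
    have h : t ≤ r0 / (3 * m) := min_le_left _ _
    have h2 : m * (t / r0) ≤ m * (r0 / (3 * m) / r0) := by gcongr
    refine h2.trans (le_of_eq ?_)
    field_simp
  have ht2 : sC * ((t + t) / r0) * J < sc / 3 * I0 := by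
    have h : t ≤ sc * I0 * r0 / (12 * (sC * J + 1)) := min_le_right _ _
    have h2 : sC * ((t + t) / r0) * J ≤ sc * I0 / 6 := by
      have h3 : t * (12 * (sC * J + 1)) ≤ sc * I0 * r0 := by
        rwa [le_div_iff₀ (by positivity)] at h
      have h4 : sC * ((t + t) / r0) * J = 2 * t * (sC * J) / r0 := by ring
      rw [h4, div_le_iff₀ hr0pos]
      nlinarith [mul_nonneg hsC0 hJ0]
    have h5 : 0 < sc * I0 := by positivity
    linarith
  refine ⟨t, t, ht0, ht0, ?_⟩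
  intro e c ε T B P he hc hε0 hε hC hT hD y0 hy0
  by_contra hcon
  push Not at hcon
  have hcl : ∀ X ∈ KK e 0, ‖X‖ = 1 → ‖FF T P X - y0‖ ≤ t := hcon
  have hlow : ∀ x, x ≠ 0 → ∀ v, c0 * ‖v‖ ^ 2 ≤ ‖T x v‖ ^ 2 := fun x hx v => (hT x hx v).1
  have hup : ∀ x, x ≠ 0 → ∀ v, ‖T x v‖ ^ 2 ≤ C0 * ‖v‖ ^ 2 := fun x hx v => (hT x hx v).2
  obtain ⟨-, -, hdet3, hdet4⟩ := det m
  have hdlow : ∀ x, x ≠ 0 → sc ≤ |(T x).det| := fun x hx => hdet4 (T x) c0 hc0 (hlow x hx)
  have hdup : ∀ x, x ≠ 0 → |(T x).det| ≤ sC := fun x hx => hdet3 (T x) C0 hC0.le (hup x hx)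
  have hdne : ∀ x, x ≠ 0 → (T x).det ≠ 0 := by
    intro x hx h
    have := hdlow x hx
    rw [h, abs_zero] at this
    linarith
  have hinv : ∀ x, x ≠ 0 → (T x).IsInvertible := fun x hx => isInv (T x) (T_inj hc0 hlow x hx)
  -- geometry of the ball
  have hball : ∀ x ∈ Metric.closedBall e (1 / 2 : ℝ), 1 / 2 ≤ ‖x‖ ∧ ‖x‖ ≤ 3 / 2 ∧ 0 < ⟪x, e⟫ := by
    intro x hx
    rw [Metric.mem_closedBall, dist_eq_norm] at hx
    refine ⟨?_, ?_, ?_⟩
    · have := norm_sub_norm_le e x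
      rw [he, norm_sub_rev] at this
      linarith
    · have := norm_sub_norm_le x e
      rw [he] at this
      linarith
    · have h1 : ⟪x, e⟫ = 1 + ⟪x - e, e⟫ := by
        rw [inner_sub_left, real_inner_self_eq_norm_sq, he]; ring
      have h2 := abs_real_inner_le_norm (x - e) e
      rw [he, mul_one] at h2
      have h3 := neg_abs_le ⟪x - e, e⟫
      rw [h1]
      linarith
  -- the cutoff
  set χ : V m → ℝ := fun y => f (y - e) with hχ
  have hχc : ContDiff ℝ ∞ χ := f.contDiff.comp (contDiff_id.sub contDiff_const)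
  have hχ0 : ∀ y, y ∉ Metric.closedBall e (1 / 2 : ℝ) → χ y = 0 := by
    intro y hy
    apply f.zero_of_le_dist
    rw [Metric.mem_closedBall, not_le] at hy
    rw [dist_zero_right, ← dist_eq_norm]
    exact hy.le
  have hχs : HasCompactSupport χ := HasCompactSupport.intro (isCompact_closedBall e (1 / 2)) hχ0
  have hχn : ∀ y, 0 ≤ χ y := fun y => f.nonneg
  have hχe : ∀ y, y ∉ Metric.closedBall e (1 / 2 : ℝ) → χ =ᶠ[𝓝 y] fun _ => 0 := by
    intro y hy
    filter_upwards [Metric.isClosed_closedBall.isOpen_compl.mem_nhds hy] with y' hy'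
    exact hχ0 y' hy'
  have hIχ : ∫ y, χ y = I0 := by
    rw [hχ, hI0]; exact integral_sub_right_eq_self (fun y => f y) e
  have hdχ : ∀ y, fderiv ℝ χ y = fderiv ℝ f (y - e) := by
    intro y
    rw [hχ]
    exact fderiv_comp_sub e
  have hJχ : ∫ y, ‖fderiv ℝ χ y‖ = J := by
    simp only [hdχ]
    exact integral_sub_right_eq_self (fun y => ‖fderiv ℝ f y‖) e
  -- the field
  set G : V m → V m := fun y => |(T y).det| • zf T P y0 y with hG
  have hGc : ∀ y, y ≠ 0 → ContDiffAt ℝ ∞ G y := fun y hy =>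
    (cd_det hC hy (hdne y hy)).smul (cd_zf hC hD.smooth hy (hinv y hy) y0)
  set W : V m → V m := fun y => χ y • G y with hW
  have hne : ∀ y ∈ Metric.closedBall e (1 / 2 : ℝ), y ≠ 0 := by
    intro y hy
    have := (hball y hy).1
    rw [← norm_pos_iff]; linarith
  have hW0 : ∀ y, y ∉ Metric.closedBall e (1 / 2 : ℝ) → W =ᶠ[𝓝 y] fun _ => 0 := by
    intro y hy
    filter_upwards [hχe y hy] with y' hy'
    rw [hW]
    simp only [hy', zero_smul]
  have hWc : ContDiff ℝ ∞ W := by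
    rw [contDiff_iff_contDiffAt]
    intro y
    by_cases hy : y ∈ Metric.closedBall e (1 / 2 : ℝ)
    · exact hχc.contDiffAt.smul (hGc y (hne y hy))
    · exact contDiffAt_const.congr_of_eventuallyEq (hW0 y hy)
  have hWs : HasCompactSupport W := hχs.smul_right
  -- pointwise bound
  have hpt : ∀ y, LinearMap.trace ℝ (V m) (fderiv ℝ W y : V m →ₗ[ℝ] V m) ≤
      sC * ((t + t) / r0) * ‖fderiv ℝ χ y‖ - sc / 3 * χ y := by
    intro y
    by_cases hy : y ∈ Metric.closedBall e (1 / 2 : ℝ)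
    · obtain ⟨h1, h2, h3⟩ := hball y hy
      have hy0' : y ≠ 0 := hne y hy
      have hR : y ∈ Rg e c := by
        refine ⟨by linarith, by linarith, ?_⟩
        have : 0 ≤ c * ‖y‖ := by positivity
        linarith
      obtain ⟨hGd, hGt⟩ := div_bd tra hC hD hc0 hlow hy0 hy0' hR
      have hfW : fderiv ℝ W y = χ y • fderiv ℝ G y + (fderiv ℝ χ y).smulRight (G y) :=
        ((hχc.differentiable (by simp) y).hasFDerivAt.smul hGd.hasFDerivAt).fderiv
      have htr : LinearMap.trace ℝ (V m) (fderiv ℝ W y : V m →ₗ[ℝ] V m) =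
          χ y * LinearMap.trace ℝ (V m) (fderiv ℝ G y : V m →ₗ[ℝ] V m) + fderiv ℝ χ y (G y) := by
        have : (fderiv ℝ W y : V m →ₗ[ℝ] V m) = χ y • (fderiv ℝ G y : V m →ₗ[ℝ] V m) +
            (((fderiv ℝ χ y).smulRight (G y) : V m →L[ℝ] V m) : V m →ₗ[ℝ] V m) := by
          rw [hfW]; rfl
        rw [this, map_add, map_smul, smulRight_trace, smul_eq_mul]
      have hz : ‖zf T P y0 y‖ ≤ (t + t) / r0 := by
        refine (low_bd hc0 (hlow y hy0' _)).trans ?_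
        rw [Tz (hinv y hy0')]
        have h4 := Zf_bd hC hD hc hε0 hy0 hcl h1 h2 h3
        gcongr
        linarith
      have hGn : ‖G y‖ ≤ sC * ((t + t) / r0) := by
        rw [hG]
        simp only [norm_smul, Real.norm_eq_abs, abs_abs]
        exact mul_le_mul (hdup y hy0') hz (norm_nonneg _) hsC0
      have h5 : fderiv ℝ χ y (G y) ≤ sC * ((t + t) / r0) * ‖fderiv ℝ χ y‖ := by
        calc fderiv ℝ χ y (G y) ≤ ‖fderiv ℝ χ y (G y)‖ := Real.le_norm_self _
          _ ≤ ‖fderiv ℝ χ y‖ * ‖G y‖ := (fderiv ℝ χ y).le_opNorm _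
          _ ≤ ‖fderiv ℝ χ y‖ * (sC * ((t + t) / r0)) := by gcongr
          _ = sC * ((t + t) / r0) * ‖fderiv ℝ χ y‖ := by ring
      have h6 : (m : ℝ) * (ε / Real.sqrt c0) - (m - 1) * ‖y‖⁻¹ ≤ -(1 / 3) := by
        have h7 : (m : ℝ) * (ε / Real.sqrt c0) ≤ 1 / 3 := by
          refine le_trans ?_ ht1
          gcongr
        have h8 : (2 : ℝ) / 3 ≤ ‖y‖⁻¹ := by
          rw [le_inv_comm₀ (by norm_num) (by linarith)]
          linarith
        nlinarith
      have h9 : LinearMap.trace ℝ (V m) (fderiv ℝ G y : V m →ₗ[ℝ] V m) ≤ -(sc / 3) := by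
        refine hGt.trans ?_
        have h10 := hdlow y hy0'
        nlinarith [abs_nonneg (T y).det]
      rw [htr]
      have h11 := mul_le_mul_of_nonneg_left h9 (hχn y)
      linarith
    · rw [(hW0 y hy).fderiv_eq, hχ0 y hy]
      simp only [fderiv_fun_const, Pi.zero_apply, mul_zero, sub_zero]
      have : LinearMap.trace ℝ (V m) ((0 : V m →L[ℝ] V m) : V m →ₗ[ℝ] V m) = 0 := by
        have h : ((0 : V m →L[ℝ] V m) : V m →ₗ[ℝ] V m) = 0 := rfl
        rw [h, map_zero]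
      rw [this]
      positivity
  -- integrate
  have hW1 : ContDiff ℝ 1 W := hWc.of_le (by exact_mod_cast le_top)
  have hint := div m W hW1 hWs
  have hcW : Continuous (fderiv ℝ W) := hW1.continuous_fderiv (by norm_num)
  have hi1 : Integrable (fun y => LinearMap.trace ℝ (V m) (fderiv ℝ W y : V m →ₗ[ℝ] V m)) := by
    refine (trace_cont.comp hcW).integrable_of_hasCompactSupport ?_
    refine (hWs.fderiv ℝ).comp_left (g := fun A : V m →L[ℝ] V m =>
      LinearMap.trace ℝ (V m) (A : V m →ₗ[ℝ] V m)) ?_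
    have h : ((0 : V m →L[ℝ] V m) : V m →ₗ[ℝ] V m) = 0 := rfl
    rw [h, map_zero]
  have hcχ : Continuous (fderiv ℝ χ) := hχc.continuous_fderiv (by simp)
  have hi2 : Integrable (fun y => ‖fderiv ℝ χ y‖) :=
    hcχ.norm.integrable_of_hasCompactSupport (hχs.fderiv ℝ).norm
  have hi3 : Integrable χ := hχc.continuous.integrable_of_hasCompactSupport hχs
  have hfin := integral_mono hi1 ((hi2.const_mul (sC * ((t + t) / r0))).sub (hi3.const_mul (sc / 3)))
    hpt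
  simp only [Pi.sub_apply] at hfin
  rw [hint, integral_sub (hi2.const_mul _) (hi3.const_mul _), integral_const_mul,
    integral_const_mul, hIχ, hJχ] at hfin
  linarith

end Pool.Agent.Helper9.RFn
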