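import Pool.Agent.Helper47.RFn.Alg

/-!
Packet RFn-CH (MP_c98eff_gt, n >= 4): finite chains of parameters.
-/

namespace Pool.Agent.Helper9.RFn

open Pool.Agent.Helper47.RFn

theorem nrm_nonneg {n : ℕ} (v : Fin n → ℝ) : 0 ≤ nrm v :=
  Finset.sum_nonneg (fun _ _ => sq_nonneg _)

theorem rq_one {n : ℕ} (v : Fin n → ℝ) : rq (1 : M2 n) v = nrm v := by
  unfold rq nrm
  refine Finset.sum_congr rfl (fun i _ => ?_)
  simp only [Matrix.one_apply, ite_mul, one_mul, zero_mul]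
  simp [pow_two]

theorem good_mono (hWQ : Goal_WQ) {n : ℕ} {a b p c c' : ℝ} (h : Good n a b p c) (hc' : 0 < c')
    (hcc : c' ≤ c) : Good n a b p c' := by
  have hq : ∀ z w, 0 ≤ qf (Id4 n) z w := fun z w =>
    (hWQ n 1 1 1 Matrix.isSymm_one (fun v => by rw [rq_one, one_mul])
      (fun v => by rw [rq_one, one_mul]) z w).1
  refine ⟨h.ha, h.hb, h.hp, h.hp1, hc', ?_, ?_⟩
  · intro S hS hR z w
    refine le_trans ?_ (h.dq S hS hR z w)
    exact mul_le_mul_of_nonneg_right (mul_le_mul_of_nonneg_right hcc (sq_nonneg _)) (hq z w)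
  · intro S hS hR v hv
    refine le_trans ?_ (h.dr S hS hR v hv)
    exact mul_le_mul_of_nonneg_right (mul_le_mul_of_nonneg_right hcc (sq_nonneg _))
      (nrm_nonneg v)

/-- chains from a reflexive transitive closure -/
theorem seq_of_rtg {α : Type*} {r : α → α → Prop} {x y : α} (h : Relation.ReflTransGen r x y) :
    ∃ (N : ℕ) (θ : ℕ → α), θ 0 = x ∧ θ N = y ∧ ∀ k < N, r (θ k) (θ (k + 1)) := by
  induction h using Relation.ReflTransGen.head_induction_on with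
  | refl => exact ⟨0, fun _ => y, rfl, rfl, fun k hk => absurd hk (Nat.not_lt_zero k)⟩
  | @head a c hxy _ ih =>
    obtain ⟨N, θ, h0, hN, hs⟩ := ih
    refine ⟨N + 1, fun k => Nat.casesOn k a θ, rfl, hN, ?_⟩
    intro k hk
    cases k with
    | zero =>
      show r a (θ 0)
      rw [h0]
      exact hxy
    | succ k => exact hs k (by omega)

/-- subdivision of a segment -/
theorem seg {α : Type*} {r : α → α → Prop} (γ : ℝ → α) {s t η : ℝ} (hst : s ≤ t) (hη : 0 < η)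
    (h : ∀ x y, s ≤ x → x ≤ t → s ≤ y → y ≤ t → |y - x| ≤ η → r (γ x) (γ y)) :
    Relation.ReflTransGen r (γ s) (γ t) := by
  obtain ⟨M, hM⟩ := exists_nat_gt ((t - s) / η)
  have hd : 0 ≤ t - s := by linarith
  have hM0 : (0:ℝ) < M := lt_of_le_of_lt (div_nonneg hd hη.le) hM
  have hstep : (t - s) / M ≤ η := by
    rw [div_lt_iff₀ hη] at hM
    rw [div_le_iff₀ hM0]
    linarith
  have key : ∀ k : ℕ, k ≤ M → Relation.ReflTransGen r (γ s) (γ (s + k * ((t - s) / M))) := by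
    intro k
    induction k with
    | zero => intro _; simp; exact Relation.ReflTransGen.refl
    | succ k ih =>
      intro hk
      refine (ih (by omega)).tail ?_
      have hx : ∀ j : ℕ, j ≤ M → s ≤ s + j * ((t - s) / M) ∧ s + j * ((t - s) / M) ≤ t := by
        intro j hj
        have hjM : (j : ℝ) ≤ M := by exact_mod_cast hj
        have hq : 0 ≤ (t - s) / M := div_nonneg hd hM0.le
        constructor
        · have := mul_nonneg (Nat.cast_nonneg (α := ℝ) j) hq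
          linarith
        · have : (j : ℝ) * ((t - s) / M) ≤ M * ((t - s) / M) :=
            mul_le_mul_of_nonneg_right hjM hq
          rw [mul_div_cancel₀ _ hM0.ne'] at this
          linarith
      apply h _ _ (hx k (by omega)).1 (hx k (by omega)).2 (hx (k + 1) hk).1 (hx (k + 1) hk).2
      have : s + ((k + 1 : ℕ) : ℝ) * ((t - s) / M) - (s + k * ((t - s) / M)) = (t - s) / M := by
        push_cast
        ring
      rw [this, abs_of_nonneg (div_nonneg hd hM0.le)]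
      exact hstep
  have := key M le_rfl
  rw [mul_div_cancel₀ _ hM0.ne'] at this
  simpa using this

theorem aF_lip {m b b' : ℝ} (hm : 0 ≤ m) (hb : 0 ≤ b) (hb1 : b ≤ 1 / 2) (hb' : 0 ≤ b')
    (hb1' : b' ≤ 1 / 2) :
    |(m * b' ^ 2 + 2 * b') / (2 + 2 * m * b' ^ 2) - (m * b ^ 2 + 2 * b) / (2 + 2 * m * b ^ 2)|
      ≤ (m + 1) * |b' - b| := by
  have h1 : 0 < 1 + m * b ^ 2 := by positivity
  have h2 : 0 < 1 + m * b' ^ 2 := by positivity
  have e : (m * b' ^ 2 + 2 * b') / (2 + 2 * m * b' ^ 2) - (m * b ^ 2 + 2 * b) / (2 + 2 * m * b ^ 2)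
      = (b' - b) * ((2 - 2 * m * b * b' + m * (b + b')) /
        (2 * ((1 + m * b ^ 2) * (1 + m * b' ^ 2)))) := by
    field_simp
    ring
  rw [e, abs_mul, mul_comm]
  refine mul_le_mul_of_nonneg_right ?_ (abs_nonneg _)
  have hbb : 0 ≤ b * b' := mul_nonneg hb hb'
  have hbb' : b * b' ≤ 1 / 4 := by nlinarith
  have hp : 1 ≤ (1 + m * b ^ 2) * (1 + m * b' ^ 2) := by
    have a1 : 0 ≤ m * b ^ 2 := by positivity
    have a2 : 0 ≤ m * b' ^ 2 := by positivity
    nlinarith [mul_nonneg a1 a2]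
  rw [abs_div, abs_of_pos (by positivity : 0 < 2 * ((1 + m * b ^ 2) * (1 + m * b' ^ 2))),
    div_le_iff₀ (by positivity)]
  have h3 : |2 - 2 * m * b * b' + m * (b + b')| ≤ 2 * (m + 1) := by
    rw [abs_le]
    have k1 : 0 ≤ m * (b + b') := by positivity
    have k2 : m * (b + b') ≤ m := by nlinarith
    have k3 : 0 ≤ m * (b * b') := by positivity
    have k4 : m * (b * b') ≤ m / 4 := by nlinarith
    constructor <;> nlinarith
  calc |2 - 2 * m * b * b' + m * (b + b')| ≤ 2 * (m + 1) := h3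
    _ ≤ (m + 1) * (2 * ((1 + m * b ^ 2) * (1 + m * b' ^ 2))) := by nlinarith

theorem pF_lip {m b b' : ℝ} (hm : 0 ≤ m) (hb : 0 ≤ b) (hb1 : b ≤ 1 / 2) (hb' : 0 ≤ b')
    (hb1' : b' ≤ 1 / 2) :
    |m * b' ^ 2 / (1 + m * b' ^ 2) - m * b ^ 2 / (1 + m * b ^ 2)| ≤ (m + 1) * |b' - b| := by
  have h1 : 0 < 1 + m * b ^ 2 := by positivity
  have h2 : 0 < 1 + m * b' ^ 2 := by positivity
  have e : m * b' ^ 2 / (1 + m * b' ^ 2) - m * b ^ 2 / (1 + m * b ^ 2)
      = (b' - b) * (m * (b + b') / ((1 + m * b ^ 2) * (1 + m * b' ^ 2))) := by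
    field_simp
    ring
  rw [e, abs_mul, mul_comm]
  refine mul_le_mul_of_nonneg_right ?_ (abs_nonneg _)
  have hp : 1 ≤ (1 + m * b ^ 2) * (1 + m * b' ^ 2) := by
    have a1 : 0 ≤ m * b ^ 2 := by positivity
    have a2 : 0 ≤ m * b' ^ 2 := by positivity
    nlinarith [mul_nonneg a1 a2]
  rw [abs_of_nonneg (by positivity), div_le_iff₀ (by positivity)]
  have k1 : m * (b + b') ≤ m := by nlinarith
  nlinarith

theorem goal_CH (hG1 : Goal_G1) (hG2 : Goal_G2) (hG3 : Goal_G3) (hST : Goal_ST)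
    (hWQ : Goal_WQ) : Goal_CH := by
  intro n hn b0 a1 hb0 hb0' ha1
  obtain ⟨c1, hc1, g1⟩ := hG1 n hn b0 hb0 hb0'
  obtain ⟨c2, hc2, g2⟩ := hG2 n hn
  obtain ⟨c3, hc3, g3⟩ := hG3 n hn a1 ha1
  set c := min c1 (min c2 c3) with hc
  have hcpos : 0 < c := lt_min hc1 (lt_min hc2 hc3)
  refine ⟨c, hcpos, ?_⟩
  intro ξ hξ
  have hn4 : (4:ℝ) ≤ n := by exact_mod_cast hn
  set m : ℝ := (n : ℝ) - 2 with hm
  have hm0 : 0 ≤ m := by linarith
  have hp1 : p1 n < 1 := by
    unfold p1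
    apply max_lt (by norm_num)
    rw [div_lt_one (by linarith)]
    linarith
  have hp10 : 0 ≤ p1 n := le_trans (by norm_num) (le_max_left _ _)
  obtain ⟨δ, hδ, hS⟩ := hST n hn a1 (p1 n) ξ (by linarith) hp1 hξ
  let G : ℝ × ℝ × ℝ → Prop := fun θ => Good n θ.1 θ.2.1 θ.2.2 c ∧ θ.1 ≤ a1 + 1 ∧ θ.2.1 ≤ 1 / 2
  let r : ℝ × ℝ × ℝ → ℝ × ℝ × ℝ → Prop := fun θ θ' => G θ ∧ G θ' ∧ Step n ξ θ θ'
  -- the first family
  have haF : ∀ b, 0 ≤ b → b ≤ 1 / 2 → 0 ≤ aF n b ∧ aF n b ≤ 1 / 2 := by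
    intro b h0 h1
    unfold aF
    rw [← hm]
    constructor
    · positivity
    · rw [div_le_iff₀ (by positivity)]
      nlinarith
  have hpF : ∀ b, 0 ≤ b → b ≤ 1 / 2 → 0 ≤ pF n b ∧ pF n b ≤ p1 n := by
    intro b h0 h1
    unfold pF
    rw [← hm]
    constructor
    · positivity
    · refine le_trans ?_ (le_max_right _ _)
      rw [← hm, div_le_div_iff₀ (by positivity) (by linarith)]
      have : b ^ 2 ≤ 1 / 4 := by nlinarith
      have e : (n : ℝ) + 2 = m + 4 := by rw [hm]; ring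
      rw [e]
      nlinarith [mul_nonneg hm0 (sq_nonneg b)]
  have gd1 : ∀ b, b0 ≤ b → b ≤ 1 / 2 → G (aF n b, b, pF n b) := by
    intro b h0 h1
    exact ⟨good_mono hWQ (g1 b h0 h1) hcpos (min_le_left _ _), by
      have := (haF b (by linarith) h1).2
      show aF n b ≤ a1 + 1
      linarith, h1⟩
  have s1 : Relation.ReflTransGen r (aF n b0, b0, pF n b0)
      (aF n (1 / 2), 1 / 2, pF n (1 / 2)) := by
    refine seg (fun b => (aF n b, b, pF n b)) hb0' (η := δ / (m + 1)) (by positivity) ?_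
    intro b b' h0 h1 h0' h1' hd
    refine ⟨gd1 b h0 h1, gd1 b' h0' h1', ?_⟩
    have k0 : 0 ≤ b := by linarith
    have k0' : 0 ≤ b' := by linarith
    have hd' : (m + 1) * |b' - b| ≤ δ := by
      rw [le_div_iff₀ (by positivity)] at hd
      linarith
    have hd1 : |b' - b| ≤ δ := by
      nlinarith [abs_nonneg (b' - b)]
    apply hS _ _ _ _ _ _ (haF b k0 h1).1 (by linarith [(haF b k0 h1).2]) (haF b' k0' h1').1
      (by linarith [(haF b' k0' h1').2]) k0 h1 k0' h1' (hpF b k0 h1).1 (hpF b k0 h1).2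
      (hpF b' k0' h1').1 (hpF b' k0' h1').2 _ hd1 _
    · exact (aF_lip hm0 k0 h1 k0' h1').trans hd'
    · exact (pF_lip hm0 k0 h1 k0' h1').trans hd'
  have e1 : aF n (1 / 2) = 1 / 2 := by
    unfold aF
    rw [← hm, div_eq_iff (by positivity)]
    ring
  have e2 : pF n (1 / 2) = ((n : ℝ) - 2) / ((n : ℝ) + 2) := by
    unfold pF
    rw [← hm, div_eq_div_iff (by positivity) (by linarith)]
    have : (n : ℝ) + 2 = m + 4 := by rw [hm]; ring
    rw [this]
    ring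
  -- the second family
  have hq0 : 0 ≤ ((n : ℝ) - 2) / ((n : ℝ) + 2) := by
    rw [← hm]
    apply div_nonneg hm0
    linarith
  have s2 : Relation.ReflTransGen r (1 / 2, 1 / 2, ((n : ℝ) - 2) / ((n : ℝ) + 2))
      (1 / 2, 1 / 2, p1 n) := by
    refine seg (fun p => ((1 / 2 : ℝ), (1 / 2 : ℝ), p)) (le_max_right _ _) (η := δ) hδ ?_
    intro p p' h0 h1 h0' h1' hd
    have gd : ∀ p, ((n : ℝ) - 2) / ((n : ℝ) + 2) ≤ p → p ≤ p1 n → G (1 / 2, 1 / 2, p) :=
      fun p h0 h1 => ⟨good_mono hWQ (g2 p h0 h1) hcpos ((min_le_right _ _).trans (min_le_left _ _)),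
        by show (1 / 2 : ℝ) ≤ a1 + 1; linarith, le_rfl⟩
    refine ⟨gd p h0 h1, gd p' h0' h1', ?_⟩
    exact hS _ _ _ _ _ _ (by norm_num) ha1 (by norm_num) ha1 (by norm_num) le_rfl (by norm_num)
      le_rfl (hq0.trans h0) h1 (hq0.trans h0') h1' (by simpa using hδ.le) (by simpa using hδ.le) hd
  -- the third family
  have gd3 : ∀ a, 1 / 2 ≤ a → a ≤ a1 → G (a, 1 / 2, p1 n) :=
    fun a h0 h1 => ⟨good_mono hWQ (g3 a h0 h1) hcpos ((min_le_right _ _).trans (min_le_right _ _)),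
      by show a ≤ a1 + 1; linarith, le_rfl⟩
  have s3 : Relation.ReflTransGen r (1 / 2, 1 / 2, p1 n) (a1, 1 / 2, p1 n) := by
    refine seg (fun a => (a, (1 / 2 : ℝ), p1 n)) ha1 (η := δ) hδ ?_
    intro a a' h0 h1 h0' h1' hd
    refine ⟨gd3 a h0 h1, gd3 a' h0' h1', ?_⟩
    exact hS _ _ _ _ _ _ (by linarith) h1 (by linarith) h1' (by norm_num) le_rfl (by norm_num)
      le_rfl hp10 le_rfl hp10 le_rfl hd (by simpa using hδ.le) (by simpa using hδ.le)
  rw [e1, e2] at s1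
  obtain ⟨N, θ, t0, tN, ts⟩ := seq_of_rtg ((s1.trans s2).trans s3)
  refine ⟨N, θ, t0, tN, ?_, fun k hk => (ts k hk).2.2⟩
  intro k hk
  rcases Nat.lt_or_ge k N with h | h
  · exact (ts k h).1
  · have : k = N := le_antisymm hk h
    subst this
    rw [tN]
    exact gd3 a1 ha1 le_rfl

end Pool.Agent.Helper9.RFn
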